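import Mathlib.Tactic

/-!
# Positive total scalar curvature and Kodaira dimension: manifolds far from Moishezon suffice

Let `X` be compact complex manifolds in Fujiki's class `𝒞`. Question Q1 asks whether `κ(X) = -∞` implies
that `X` has a Gauduchon metric of positive total scalar curvature, that is, that `K_X` is not
pseudo-effective. If Q1 fails for one `X`, with dimension `n₀`, algebraic dimension `a₀` and numerical
dimension `ν₀` of `K_X`, then products with elliptic curves, curves of genus two and general complex tori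
give counterexamples with all invariants `(n, a, ν)` with `ν ≥ ν₀`, `a - ν ≥ a₀ - ν₀` and
`n - a ≥ n₀ - a₀ + 2`. So Q1 is equivalent to its case for the manifolds with invariants in any set of
triples `(n, a, ν)` on which `ν`, `a - ν` and `n - a` are simultaneously arbitrarily large: it is enough to
treat manifolds which are as far as one likes from Moishezon manifolds, with canonical classes which are as
far as one likes from being numerically trivial and from being big on the algebraic reduction.
-/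

set_option autoImplicit false

namespace Pool.Agent.Results.MP_23b606_ag.FarFromMoishezon

universe u

/-- Compact complex manifolds in class `𝒞`. -/
structure ClassC where
  /-- the manifolds -/
  Mfd : Type u
  /-- the dimension -/
  dim : Mfd → ℕ
  /-- the algebraic dimension -/
  alg : Mfd → ℕ
  /-- the numerical dimension of `K_X`, if `K_X` is pseudo-effective (of any value otherwise) -/
  nu : Mfd → ℕ
  /-- `κ(X) ≥ 0` -/
  Effective : Mfd → Prop
  /-- `K_X` is pseudo-effective -/
  Psef : Mfd → Prop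
  /-- `X` has a Gauduchon metric of positive total scalar curvature -/
  PositiveMetric : Mfd → Prop

/-- `Z` behaves as the product of `X` with a manifold with the invariants `d`, `a`, `ν` and `κ ≥ 0`. -/
structure IsProductWith (T : ClassC.{u}) (X Z : T.Mfd) (d a ν : ℕ) : Prop where
  /-- dimensions are additive -/
  dim : T.dim Z = T.dim X + d
  /-- algebraic dimensions are additive -/
  alg : T.alg Z = T.alg X + a
  /-- numerical dimensions are additive -/
  nu : T.nu Z = T.nu X + ν
  /-- `κ(Z) = -∞` if `κ(X) = -∞` -/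
  effective : T.Effective Z → T.Effective X
  /-- `K_Z` is pseudo-effective if `K_X` is -/
  psef : T.Psef X → T.Psef Z

/-- The known properties. -/
structure IsKnown (T : ClassC.{u}) : Prop where
  /-- a Gauduchon metric of positive total scalar curvature exists if and only if `K_X` is not
  pseudo-effective -/
  metric_iff : ∀ X, T.PositiveMetric X ↔ ¬ T.Psef X
  /-- products with an elliptic curve -/
  elliptic : ∀ X, T.Psef X → ∃ Z, IsProductWith T X Z 1 1 0
  /-- products with a curve of genus two -/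
  curve : ∀ X, T.Psef X → ∃ Z, IsProductWith T X Z 1 1 1
  /-- products with a complex torus of dimension `d ≥ 2` and algebraic dimension zero -/
  torus : ∀ X, T.Psef X → ∀ d, 2 ≤ d → ∃ Z, IsProductWith T X Z d 0 0

variable {T : ClassC.{u}}

/-- `X` satisfies Q1. -/
def Holds (X : T.Mfd) : Prop := ¬ T.Effective X → T.PositiveMetric X

/-- Question Q1. -/
def Conjecture (T : ClassC.{u}) : Prop := ∀ X : T.Mfd, Holds X

/-- Q1 for all manifolds of dimension `n` with algebraic dimension `a` and numerical dimension `ν` of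
`K_X`. -/
def ConjectureFor (T : ClassC.{u}) (n a ν : ℕ) : Prop :=
  ∀ X : T.Mfd, T.dim X = n → T.alg X = a → T.nu X = ν → Holds X

theorem fails_iff (hT : IsKnown T) (X : T.Mfd) : ¬ Holds X ↔ T.Psef X ∧ ¬ T.Effective X := by
  unfold Holds
  rw [Classical.not_imp, hT.metric_iff, not_not, and_comm]

theorem fails_prod {X Z : T.Mfd} {d a ν : ℕ} (h : IsProductWith T X Z d a ν)
    (hX : T.Psef X ∧ ¬ T.Effective X) : T.Psef Z ∧ ¬ T.Effective Z :=
  ⟨h.psef hX.1, fun h1 => hX.2 (h.effective h1)⟩

theorem curves (hT : IsKnown T) (X : T.Mfd) (hX : T.Psef X ∧ ¬ T.Effective X) :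
    ∀ m : ℕ, ∃ Z, T.dim Z = T.dim X + m ∧ T.alg Z = T.alg X + m ∧ T.nu Z = T.nu X + m ∧
      (T.Psef Z ∧ ¬ T.Effective Z) := by
  intro m
  induction m with
  | zero => exact ⟨X, rfl, rfl, rfl, hX⟩
  | succ m ih =>
    obtain ⟨Y, h1, h2, h3, h4⟩ := ih
    obtain ⟨Z, hZ⟩ := hT.curve Y h4.1
    exact ⟨Z, by rw [hZ.dim]; omega, by rw [hZ.alg]; omega, by rw [hZ.nu]; omega, fails_prod hZ h4⟩

theorem ellipticCurves (hT : IsKnown T) (X : T.Mfd) (hX : T.Psef X ∧ ¬ T.Effective X) :
    ∀ m : ℕ, ∃ Z, T.dim Z = T.dim X + m ∧ T.alg Z = T.alg X + m ∧ T.nu Z = T.nu X ∧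
      (T.Psef Z ∧ ¬ T.Effective Z) := by
  intro m
  induction m with
  | zero => exact ⟨X, rfl, rfl, rfl, hX⟩
  | succ m ih =>
    obtain ⟨Y, h1, h2, h3, h4⟩ := ih
    obtain ⟨Z, hZ⟩ := hT.elliptic Y h4.1
    exact ⟨Z, by rw [hZ.dim]; omega, by rw [hZ.alg]; omega, by rw [hZ.nu]; omega, fails_prod hZ h4⟩

/-- counterexamples with larger invariants -/
theorem spread (hT : IsKnown T) (X : T.Mfd) (hX : ¬ Holds X) (p q r : ℕ) (hr : r = 0 ∨ 2 ≤ r) :
    ∃ Z, T.dim Z = T.dim X + p + q + r ∧ T.alg Z = T.alg X + p + q ∧ T.nu Z = T.nu X + p ∧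
      ¬ Holds Z := by
  rw [fails_iff hT] at hX
  obtain ⟨A, a1, a2, a3, a4⟩ := curves hT X hX p
  obtain ⟨B, b1, b2, b3, b4⟩ := ellipticCurves hT A a4 q
  rcases hr with rfl | hr
  · exact ⟨B, by omega, by omega, by omega, (fails_iff hT B).2 b4⟩
  · obtain ⟨Z, hZ⟩ := hT.torus B b4.1 r hr
    exact ⟨Z, by rw [hZ.dim]; omega, by rw [hZ.alg]; omega, by rw [hZ.nu]; omega,
      (fails_iff hT Z).2 (fails_prod hZ b4)⟩

/-- **Manifolds far from Moishezon suffice.** For all data with the known properties:

* if Q1 fails for `X` in class `𝒞`, it fails, for all `p`, `q` and `r = 0` or `r ≥ 2`, for a manifold with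
  dimension `dim X + p + q + r`, algebraic dimension `a(X) + p + q` and numerical dimension `ν(K_X) + p`;
* for every set `S` of triples such that for every `N` there is `(n, a, ν)` in `S` with `ν ≥ N`, `a ≥ ν + N`
  and `n ≥ a + N`, Q1 holds if and only if it holds for the manifolds with `(dim, a, ν)` in `S`. -/
theorem result (T : ClassC.{u}) (hT : IsKnown T) :
    (∀ X : T.Mfd, ¬ Holds X → ∀ p q r : ℕ, r = 0 ∨ 2 ≤ r → ∃ Z : T.Mfd,
      T.dim Z = T.dim X + p + q + r ∧ T.alg Z = T.alg X + p + q ∧ T.nu Z = T.nu X + p ∧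
        ¬ Holds Z) ∧
    ∀ S : Set (ℕ × ℕ × ℕ),
      (∀ N : ℕ, ∃ n a ν : ℕ, (n, a, ν) ∈ S ∧ N ≤ ν ∧ ν + N ≤ a ∧ a + N ≤ n) →
      (Conjecture T ↔ ∀ n a ν : ℕ, (n, a, ν) ∈ S → ConjectureFor T n a ν) := by
  refine ⟨fun X hX p q r hr => spread hT X hX p q r hr, fun S hS => ⟨fun h n a ν _ X _ _ _ => h X,
    fun h X => ?_⟩⟩
  by_contra hX
  obtain ⟨n, a, ν, hmem, h1, h2, h3⟩ := hS (T.nu X + T.alg X + T.dim X + 2)
  obtain ⟨Z, z1, z2, z3, z4⟩ := spread hT X hX (ν - T.nu X) (a - T.alg X - (ν - T.nu X))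
    (n - T.dim X - (a - T.alg X)) (Or.inr (by omega))
  exact z4 (h n a ν hmem Z (by omega) (by omega) (by omega))

end Pool.Agent.Results.MP_23b606_ag.FarFromMoishezon
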