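import Pool.Agent.Q58.LG.WdgP

/-!
MP_23b606_ag, Q1, for Moishezon manifolds with an étale cover which is dominated, in small degree, by
a product of varieties over generic complete intersections, varieties with `p_g > 0` and rational
curves: the Kodaira dimension is `-∞` if and only if the manifold is uniruled (so it has a Gauduchon
metric with positive total scalar curvature), if and only if one of the factors is rational.

Let `X` be a smooth projective variety of dimension `w` with function field `K`, `X₁ → X` a finite
étale cover of any degree, with function field `L`, and `X' ⇢ X₁` a dominant generically finite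
rational map of degree `r`, with any ramification, where `X'` is birational to a product
`Y_1 × ... × Y_s`: the function field `E` of `X'` is generated by the function fields `M i` of the
`Y_i`, of dimension `b i`, and `∑ b i = w`. Let the `Y_i` be of one of the following three kinds.

* `OverGeneric` (`Pool/Agent/Q58/LG/WdgP.lean`): `Y_i` has a generically finite rational map, with
  generic point `x i`, to a subvariety of dimension `b i` of a cyclic cover of a generic complete
  intersection. Here `V` is a closed subset of `ℙⁿ` of dimension at most `m`, defined over the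
  algebraic closure of `k` in `ℂ`, the `F_a` are forms of degrees `d_a` over `ℂ` whose coefficients
  are algebraically independent over `k`; `F_a (x) = 0` for `a` in a set `C`, and `F_a (x)` is a
  nonzero `q_a`-th power for the other `a`, where `q_a` divides `d_a`; and
  `2 m + r + ∑_{a ∉ C} d_a / q_a ≤ ∑ d_a + |C| + b i`.
* `p_g (Y_i) > 0` (`HasForm`).
* `Y_i` is a rational curve.

The only condition on the map `X' ⇢ X₁` besides its degree is that `E` is generated over `L` by the
coordinates of the points `x i` of the `Y_i` of the first kind (so the fibres of `X' ⇢ X₁` are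
separated by their images in the product of the `Y_i` of the first kind); for the others `x i = 1`.

Then the following are equivalent: `κ(X) = -∞`; `X` is uniruled; `K_X` is not pseudo-effective; one
of the `Y_i` is a rational curve.

`KodGe ℂ K w (fun _ => False) 0` says that `κ(X) ≥ 0` (`Pool/Agent/W602/GT/KDefs.lean`), `Psef` is in
`Pool/Agent/W602/GT/SpDefs.lean` and `IsUniruled` in `Pool/Agent/W619/PQ/Defs.lean`.
-/

set_option autoImplicit false

namespace Pool.Agent.Results.MP_23b606_ag.ProductCorrespondences

open FF
open Pool.Agent.W603.LV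
open Pool.Agent.W602.GT (Divisorial KodGe Psef)
open Pool.Agent.W619.PQ (IsUniruled)
open Pool.Agent.Q58.LG (OverGeneric HasForm)

theorem result {k : Type} [Field k] [Algebra k ℂ]
    -- the function fields of `X`, `X₁` and `X'`
    {K L E : Type} [Field K] [Field L] [Field E] [Algebra ℂ K] [Algebra ℂ L] [Algebra ℂ E]
    [Algebra K L] [IsScalarTower ℂ K L] [FiniteDimensional K L]
    [Algebra L E] [IsScalarTower ℂ L E] [FiniteDimensional L E] [Algebra.EssFiniteType ℂ K]
    {w : ℕ} (hK : Algebra.trdeg ℂ K = w)
    -- the cover `X₁ → X` is étale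
    (hunr : ∀ (P : Place ℂ K) (Q : Place ℂ L) (e : ℕ), Divisorial w P → Over Q P e → e = 1)
    -- `X'` is birational to the product of the `Y_i`
    {s : ℕ} {b n : Fin s → ℕ} (hw : w = ∑ i, b i) (M : Fin s → IntermediateField ℂ E)
    [∀ i, Algebra.EssFiniteType ℂ (M i)] (hM : ∀ i, Algebra.trdeg ℂ (M i) = b i)
    (hsup : (⨆ i, M i) = ⊤)
    -- the points `x i`, and the three kinds of factors
    (x : ∀ i, Fin (n i + 1) → M i) (j0 : ∀ i, Fin (n i + 1)) (hx1 : ∀ i, x i (j0 i) = 1)
    (hgenL : IntermediateField.adjoin L (⋃ i, Set.range fun j => ((x i j : M i) : E)) = ⊤)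
    (h : ∀ i, OverGeneric k (Module.finrank L E) (M i) (b i) (x i) ∨
      ((∀ j, x i j = 1) ∧ HasForm (M i) (b i)) ∨
      (b i = 1 ∧ ∃ t : M i, IntermediateField.adjoin ℂ {t} = ⊤)) :
    [¬ KodGe ℂ K w (fun _ => False) 0, IsUniruled ℂ K w, ¬ Psef ℂ K w (fun _ => False),
      ∃ i, b i = 1 ∧ ∃ t : M i, IntermediateField.adjoin ℂ {t} = ⊤].TFAE := by
  have hessL : Algebra.EssFiniteType ℂ L := Algebra.EssFiniteType.comp ℂ K L
  have hE : Algebra.trdeg ℂ E = w :=
    Pool.Agent.Y172.trdeg_up (K := L) (Pool.Agent.Y172.trdeg_up (K := K) hK)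
  have hr : 1 ≤ Module.finrank L E := Module.finrank_pos
  tfae_have 4 → 2 := by
    rintro ⟨i, hb, t, ht⟩
    obtain ⟨N, h1, h2, h3, h4, ⟨f⟩⟩ := Pool.Agent.Q58.LG.uni_of_factor hE hw M hM hsup hb ht
    exact ⟨N, h1, h2, h3, h4, ⟨f.comp
      ((IsScalarTower.toAlgHom ℂ L E).comp (IsScalarTower.toAlgHom ℂ K L))⟩⟩
  tfae_have 2 → 3 := fun hu hP =>
    (Pool.Agent.W619.Y.uniruled_neg w hK hu).1 ((Pool.Agent.TH466.QG.psef_iff w).1 hP)
  tfae_have 3 → 1 := fun hP hk => hP (Pool.Agent.W602.GT.psef_of_kodGe hk)
  tfae_have 1 → 4 := by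
    intro hk
    by_contra hno
    apply hk
    have hmany : ∀ i, Pool.Agent.Q58.LG.Many (M i) (b i) (Module.finrank L E - 1) (x i)
        (fun _ => False) := by
      intro i
      rcases h i with h1 | ⟨h1, h2⟩ | h1
      · refine Pool.Agent.Q58.LG.many_gen (k := k) (hM i) (hx1 i) ?_
        rwa [Nat.sub_add_cancel hr]
      · exact Pool.Agent.Q58.LG.many_form h1 h2
      · exact absurd ⟨i, h1⟩ hno
    have halg : Algebra.IsAlgebraic (⨆ i, M i : IntermediateField ℂ E) E := by
      rw [hsup]
      exact ⟨fun z => isAlgebraic_algebraMap (⟨z, trivial⟩ : (⊤ : IntermediateField ℂ E))⟩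
    exact (Pool.Agent.Q58.LG.prod_dom (N := Module.finrank L E - 1) hK hw hunr M hM halg hx1 hgenL
      hmany).1 (by omega)
  tfae_finish

end Pool.Agent.Results.MP_23b606_ag.ProductCorrespondences
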