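import Pool.Agent.Q298.MX.CycU
import Pool.Agent.Q298.GS.Tow

/-!
# Uniruled or `ℚ`-effective: constant factors times moving superelliptic curves over towers

Let `X` be a projective manifold, let `X ⇢ Z` be a dominant rational map to a projective manifold of
dimension `b`, otherwise arbitrary (for instance a point), and let `|V_1|, ..., |V_c|` be linear
systems on `X` without fixed components. Let `Y_j` be the image of the rational map of `X` to the
product of `Z` and of the first `j` projective spaces, a variety of the dimension
`b + d_1 + ... + d_j` with `d_j ≥ 1`; so `Y_0 = Z`. Let `V_j` be of dimension `n_j = d_j + k_j`.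
Suppose:

* (position) for each `j`, the images of the general fibres of `X ⇢ Y_{j-1}` (of the Stein
  factorization) in the projective space of `V_j` are nondegenerate;
* (the members) `V_j` is spanned by finitely many members `D_i` of `|V_j|`, in arbitrary position. Let
  `p_j` be the number of the components of this configuration: `V_j` is the direct sum of `p_j`
  nonzero subspaces such that each `D_i` belongs to one of them, its component, and there is no such
  decomposition into `p_j + 1` subspaces. At every prime divisor `P` of `X` which is a component of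
  some `D_i`, there are two members of one component of the configuration whose multiplicities at `P`
  differ by at least `s_j`. Let `R_j = n_j + 3 - p_j`, or `R_j = n_j + 1` if `p_j = 1` and there are
  at least `n_j + 3` different members. Then either `2 s_j ≥ R_j (k_j + 1) (k_j + 2)`, and `κ_j = 0`,
  or `2 s_j > R_j (k_j + 1) (k_j + 2)`, and `κ_j = d_j + 1 - p_j ≥ 0`;
* (the fibres) the geometric generic fibre `F` of the map of `X` to `Y = Y_c` is birational to the
  product of a projective manifold `F₀` of dimension `e₀`, which does not vary but is otherwise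
  arbitrary, and of superelliptic curves `C_1, ..., C_{e₁}` with varying branch points: for some
  variety `Y''` with a generically finite map to `Y`, ramified anywhere, the function field `K'` of
  the main component of the fibre product `X ×_Y Y''` is generated by the elements which are algebraic
  over the function field of `Y`, by the function field `M` of `F₀` and by `x_j`, `z_j` with
  `z_j ^ m_j = G_j (x_j)`, where `m_j ≥ 1` and the `G_j ≠ 0` are polynomials whose coefficients are
  algebraic over the function field of `Y`.

Let `W_j` be the sum over the roots of `G_j`, of multiplicity `μ`, of `1 - gcd (m_j, μ) / m_j`, and of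
`1 - gcd (m_j, deg G_j) / m_j`. The curve `C_j` (a component of the normalization, of degree `n` over
the line) is of genus `g_j` with `2 g_j - 2 = n (W_j - 2)`. Then

* if `F₀` is uniruled or some `W_j < 2`, then `X` is uniruled;
* if all `W_j ≥ 2`, `κ(Z) ≥ z ≥ 0` and `κ(F₀) ≥ a ≥ 0` then
  `κ(X) ≥ z + (κ_1 + ... + κ_c) + a + g`, where `g` is the number of the `j` with `W_j > 2`.

So if `κ(Z) ≥ 0` and if Q1 has a positive answer for `F₀` (`κ(F₀) = -∞` implies that `F₀` is uniruled;
this is known if `e₀ ≤ 3`) then it has a positive answer for `X`: `X` is uniruled or `κ(X) ≥ 0`.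

The case of equality `2 s_j = R_j (k_j + 1) (k_j + 2)` is the case in which the orbifold base of `V_j`
may be of Calabi-Yau type, and then `κ_j = 0`. For instance `d_j = 1`, `k_j = 0`: three members of a
pencil whose components have the multiplicities at least `3`, or four members with multiplicities at
least `2`. Our `MP_813db1_ag.DecomposableSystems` is the case of double covers, `m_j = 2`; that a
cyclic cover of the line with `W_j < 2` is rational (it has at most two branch points) was not needed
there.

The function-field language of the starting repository is used. `K` is the function field of `X` and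
`B` that of `Z`; the prime divisors of `X` are places `P` of `K` (`Place`, `Divisorial`), `P.ord` is
the order along `P`, and `X` is given by the set of its prime divisors. A linear system is given by a
finite dimensional space `V` of rational functions: if `a` is the minimum of the orders at `P` of the
members of `V` then the multiplicity of `P` in the divisor of the system which is given by `f ∈ V` is
`P.ord f - a`. A section of `N K_X` is an `N`-canonical form `ω` (`IsPluri`), a function of rational
vector fields, whose value on vector fields that are regular at `P` is regular at `P`, for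
all prime divisors `P` of `X`. For `F₀` and `Z`, all divisorial places of their function fields are
taken: these are the sections of `N K` on a smooth projective model. `acl ℂ S` is the algebraic
closure in the ambient field of the field which is generated by `S`.

Proof. Three kinds of forms along the fibres of the successive maps are multiplied, and controlled at
all prime divisors of `X`, including the vertical ones: the pluricanonical forms of `Z` and of `F₀`
(`Pool.Agent.Q298.MX.pluri_stage`), the generalised Wronskians of `V_j` with respect to vector fields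
which are tangent to the fibres of `X ⇢ Y_{j-1}` (`Pool.Agent.Q298.GS.stageG`), and forms made of the
curves over the compositum of the function fields of `Y` and `F₀` (`Pool.Agent.Y191.cyc_low`). If
`W_j < 2` then `C_j` has at most two branch points, by an elementary inequality for the greatest
common divisors (`Pool.Agent.Q298.MX.gcd_three`), and is parametrised (`cyc_rational`, `cyc_unir`).
-/

set_option autoImplicit false

open FF Pool.Agent.W602.GT Pool.Agent.Y172 UniqueFactorizationMonoid

namespace Pool.Agent.Results.MP_23b606_ag.SuperellipticTowers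

/-- The function field of the image `Y_j` of `X` under the map to `Z`, with the function field `B`,
and the first `j` linear systems: the field which is generated by `B` and by the quotients of the
members of each of them. -/
noncomputable def ImageField {K : Type} [Field K] [Algebra ℂ K] (B : IntermediateField ℂ K) {c : ℕ}
    (V : Fin c → Submodule ℂ K) (j : ℕ) : IntermediateField ℂ K :=
  B ⊔ IntermediateField.adjoin ℂ
    {y : K | ∃ i : Fin c, (i : ℕ) < j ∧ ∃ f ∈ V i, ∃ g ∈ V i, y = f / g}

/-- The algebraic closure of the subfield `L` in `K`. -/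
noncomputable def ClosureIn {K : Type} [Field K] [Algebra ℂ K] (L : IntermediateField ℂ K) :
    IntermediateField ℂ K :=
  (algebraicClosure L K).restrictScalars ℂ

/-- `γ` is a decomposition of the configuration of the members `φ i` of `V` into `p` components: `V`
has a basis of `n + 1` elements `x a`, divided into `p` nonempty groups (`x a` is in the group `g a`),
such that `φ i` is in the subspace spanned by the elements of the group `γ i`. -/
def Decomposition (n : ℕ) {q p : ℕ} {K : Type} [Field K] [Algebra ℂ K] (V : Submodule ℂ K)
    (φ : Fin q → K) (γ : Fin q → Fin p) : Prop :=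
  ∃ (x : Fin (n + 1) → K) (g : Fin (n + 1) → Fin p), LinearIndependent ℂ x ∧
    Submodule.span ℂ (Set.range x) = V ∧ Function.Surjective g ∧
    ∀ i, φ i ∈ Submodule.span ℂ (x '' {a | g a = γ i})

/-- There are `r` members `φ i` of which no two are proportional. -/
def Different (r : ℕ) {q : ℕ} {K : Type} [Field K] [Algebra ℂ K] (φ : Fin q → K) : Prop :=
  ∃ τ : Fin r → Fin q, ∀ i j, i ≠ j → ∀ t : ℂ, φ (τ i) ≠ t • φ (τ j)

/-- The condition on the multiplicities, on a variety `X` of dimension `w`: if the prime divisor `P`
of `X` is a component of one of the divisors `D i` (the order of `φ i` at `P` is not the minimum `a`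
of the orders of the members of `V`), then there are two divisors `D i`, `D i'` of the same component
of the configuration whose multiplicities at `P` differ by at least `s`. -/
def Multiplicities (w : ℕ) {q p : ℕ} {K : Type} [Field K] [Algebra ℂ K] (V : Submodule ℂ K)
    (φ : Fin q → K) (γ : Fin q → Fin p) (X : Set (Place ℂ K)) (s : ℕ) : Prop :=
  ∀ P ∈ X, Divisorial w P → ∀ a : ℤ, (∀ f ∈ V, f = 0 ∨ a ≤ P.ord f) →
    (∃ f ∈ V, f ≠ 0 ∧ P.ord f = a) → (∃ i, P.ord (φ i) ≠ a) →
    ∃ i i', γ i' = γ i ∧ P.ord (φ i') + s ≤ P.ord (φ i)

/-- The hypotheses on the linear systems `V i` on a variety `X` of dimension `w` with a rational map to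
`Z`, a variety of dimension `b` with the function field `B`. The dimension of `Y_j` is the sum of `b`
and of the `d i` with `i < j`, `V i` has the dimension `d i + k i` as a linear system and, by
`nondegenerate`, this remains true for the space which it spans over the algebraic closure of the
function field of `Y_i`, the image under the map to `Z` and the previous linear systems. -/
structure LinearSystems {K : Type} [Field K] [Algebra ℂ K] (w : ℕ) (X : Set (Place ℂ K))
    (B : IntermediateField ℂ K) (b : ℕ) {c : ℕ} (d k κ : Fin c → ℕ) (V : Fin c → Submodule ℂ K) :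
    Prop where
  pos : ∀ i, 1 ≤ d i
  dim : ∀ j ≤ c, Algebra.trdeg ℂ (ImageField B V j) =
    (b + ∑ i ∈ Finset.univ.filter (fun i : Fin c => (i : ℕ) < j), d i : ℕ)
  nondegenerate : ∀ i : Fin c, Module.finrank (ClosureIn (ImageField B V i))
    (Submodule.span (ClosureIn (ImageField B V i)) (V i : Set K)) = d i + k i + 1
  members : ∀ i, ∃ (q p : ℕ) (φ : Fin q → K) (γ : Fin q → Fin p) (R s : ℕ), (∀ j, φ j ≠ 0) ∧
    Submodule.span ℂ (Set.range φ) = V i ∧ Decomposition (d i + k i) (V i) φ γ ∧
    (∀ γ' : Fin q → Fin (p + 1), ¬ Decomposition (d i + k i) (V i) φ γ') ∧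
    (R + p = d i + k i + 3 ∨ (p = 1 ∧ Different (d i + k i + 3) φ ∧ R = d i + k i + 1)) ∧
    Multiplicities w (V i) φ γ X s ∧
    ((κ i = 0 ∧ R * ((k i + 1) * (k i + 2)) ≤ 2 * s) ∨
      (κ i + p = d i + 1 ∧ R * ((k i + 1) * (k i + 2)) < 2 * s))

/-- The image of the subfield `L` of `K` in the extension `K'`. -/
noncomputable def Up {K : Type} (K' : Type) [Field K] [Field K'] [Algebra ℂ K] [Algebra ℂ K']
    [Algebra K K'] [IsScalarTower ℂ K K'] (L : IntermediateField ℂ K) : IntermediateField ℂ K' :=
  L.map (IsScalarTower.toAlgHom ℂ K K')

/-- `ω` is a section of `N K_X`, where `X` of dimension `w` is given by the set of its prime divisors: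
an `N`-canonical form whose values on vector fields which are regular at `P` are regular at `P`, for
all prime divisors `P` of `X`. -/
def IsSection {K : Type} [Field K] [Algebra ℂ K] (w : ℕ) (X : Set (Place ℂ K)) (N : ℕ)
    (ω : (Fin w → Derivation ℂ K K) → K) : Prop :=
  IsPluri N ω ∧ ∀ P ∈ X, Divisorial w P → ∀ D : Fin w → Derivation ℂ K K,
    (∀ i, DerReg P (D i)) → P.Reg (ω D)

/-- `κ (X) ≥ κ`: some positive multiple of `K_X` has sections with `κ` algebraically independent
ratios (a nonzero section, if `κ = 0`). -/
def KodairaGe {K : Type} [Field K] [Algebra ℂ K] (w : ℕ) (X : Set (Place ℂ K)) (κ : ℕ) : Prop :=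
  ∃ N : ℕ, 0 < N ∧ ∃ ω : Fin (κ + 1) → (Fin w → Derivation ℂ K K) → K,
    (∀ j, IsSection w X N (ω j)) ∧
    ∃ D, ω 0 D ≠ 0 ∧ AlgebraicIndependent ℂ (fun i : Fin κ => ω i.succ D / ω 0 D)

/-- Uniruled function fields of transcendence degree `w`: `K` embeds into the field of rational
functions `M(t)` over the function field `M` of a variety of dimension `w - 1`. -/
def IsUniruled (K : Type) [Field K] [Algebra ℂ K] (w : ℕ) : Prop :=
  ∃ (M : Type) (_ : Field M) (_ : Algebra ℂ M), Algebra.EssFiniteType ℂ M ∧
    Algebra.trdeg ℂ M + 1 = w ∧ Nonempty (K →ₐ[ℂ] RatFunc M)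

open Classical in
/-- The sum over the roots `b` of `G` in an algebraic closure, of multiplicity `μ b`, of
`1 - gcd (m, μ b) / m`, plus `1 - gcd (m, deg G) / m`. Here `p` is one of the different irreducible
monic factors of `G`; it occurs `(normalizedFactors G).count p` times, and has `p.natDegree` roots. -/
noncomputable def weight {F : Type} [Field F] (m : ℕ) (G : Polynomial F) : ℚ :=
  ∑ p ∈ (normalizedFactors G).toFinset,
    (p.natDegree : ℚ) * (1 - (m.gcd ((normalizedFactors G).count p) : ℚ) / m) +
      (1 - (m.gcd G.natDegree : ℚ) / m)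

theorem closure_eq {K : Type} [Field K] [Algebra ℂ K] (L : IntermediateField ℂ K) :
    ClosureIn L = Pool.Agent.Y172.acl ℂ (L : Set K) := by
  ext z
  rw [Pool.Agent.Q298.JS.mem_A]
  unfold ClosureIn
  rw [IntermediateField.mem_restrictScalars, mem_algebraicClosure_iff]

theorem LinearSystems.sys {K : Type} [Field K] [Algebra ℂ K] {w : ℕ} {X : Set (Place ℂ K)}
    {B : IntermediateField ℂ K} {b c : ℕ} {d k κ : Fin c → ℕ} {V : Fin c → Submodule ℂ K}
    (h : LinearSystems w X B b d k κ V) :
    Pool.Agent.Q298.GS.SysG w X B b d k κ V (fun _ _ => 0) := by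
  refine ⟨h.pos, h.dim, fun i => ?_, fun i => ?_⟩
  · have h1 := h.nondegenerate i
    rw [closure_eq] at h1
    exact h1
  · obtain ⟨q, p, φ, γ, R, s, h1, h2, h3, h4, h5, h6, h7⟩ := h.members i
    refine ⟨q, p, φ, γ, R, s, h1, h2, h3, h4, h5, ?_, fun P hPX hPd a ha hb hc => ?_⟩
    · rcases h7 with ⟨h8, h9⟩ | ⟨h8, h9⟩
      · exact Or.inl ⟨h8, by exact_mod_cast h9⟩
      · exact Or.inr ⟨h8, by exact_mod_cast h9⟩
    · obtain ⟨j, j', hjj, hj⟩ := h6 P hPX hPd a ha hb hc
      refine ⟨j, j', hjj, ?_⟩
      have h8 : (s : ℤ) ≤ P.ord (φ j) - P.ord (φ j') := by omega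
      have h9 : ((s : ℤ) : ℝ) ≤ ((P.ord (φ j) - P.ord (φ j') : ℤ) : ℝ) := by exact_mod_cast h8
      simpa using h9

/-- **Uniruled or `ℚ`-effective.** Let `K` be the function field of a projective manifold `X` of
dimension `b + (d + (e₀ + e₁))`, where `d` is the sum of the `d i`, let the subfield `B` be the
function field of a variety `Z` of dimension `b`, and let `V i` be linear systems on `X` with
`LinearSystems` relative to `Z`. Let `K' = K (α)`, where `α` is algebraic over the function field of
the image `Y` of `X` under the map to `Z` and all `V i`, be generated by the elements which are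
algebraic over the function field of `Y`, by the function field `M` of a variety `F₀` of dimension
`e₀`, and by `x j` and `z j` (`j < e₁`) with `z j ^ m j = G j (x j)`, where `m j ≥ 1` and the `G j`
are nonzero polynomials with coefficients which are algebraic over the function field of `Y`. If `F₀`
is uniruled or some `weight (m j) (G j) < 2` then `X` is uniruled. If all `weight (m j) (G j) ≥ 2`
then `κ (Z) ≥ zz` and `κ (F₀) ≥ a` imply `κ (X) ≥ zz + (κ + (a + g))`, where `κ` is the sum of the
`κ i` and `g` is the number of the `j` with `weight (m j) (G j) > 2`. -/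
theorem result (b c e₀ e₁ : ℕ) (d k κ : Fin c → ℕ) (K : Type) [Field K] [Algebra ℂ K]
    [Algebra.EssFiniteType ℂ K] (hK : Algebra.trdeg ℂ K = (b + (∑ i, d i + (e₀ + e₁)) : ℕ))
    (B : IntermediateField ℂ K) (V : Fin c → Submodule ℂ K) (X : Set (Place ℂ K))
    (hV : LinearSystems (b + (∑ i, d i + (e₀ + e₁))) X B b d k κ V)
    (K' : Type) [Field K'] [Algebra ℂ K'] [Algebra K K'] [IsScalarTower ℂ K K'] (α : K')
    (hα : IsAlgebraic (Up K' (ImageField B V c)) α) (hαt : IntermediateField.adjoin K {α} = ⊤)
    (M : IntermediateField ℂ K') [Algebra.EssFiniteType ℂ M] (hM : Algebra.trdeg ℂ M = e₀)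
    (x z : Fin e₁ → K') (m : Fin e₁ → ℕ) (hm : ∀ j, 1 ≤ m j)
    (G : Fin e₁ → Polynomial (acl ℂ (Up K' (ImageField B V c) : Set K'))) (hG : ∀ j, G j ≠ 0)
    (heq : ∀ j, z j ^ m j = Polynomial.aeval (x j) (G j))
    (hgen : IntermediateField.adjoin ℂ
      ((acl ℂ (Up K' (ImageField B V c) : Set K') : Set K') ∪ (M : Set K') ∪ Set.range x ∪
        Set.range z) = ⊤) :
    ((IsUniruled M e₀ ∨ ∃ j, weight (m j) (G j) < 2) →
      IsUniruled K (b + (∑ i, d i + (e₀ + e₁)))) ∧
      ((∀ j, 2 ≤ weight (m j) (G j)) → ∀ zz a : ℕ, KodairaGe b (Set.univ : Set (Place ℂ B)) zz →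
        KodairaGe e₀ (Set.univ : Set (Place ℂ M)) a →
        KodairaGe (b + (∑ i, d i + (e₀ + e₁))) X
          (zz + (∑ i, κ i + (a + (Finset.univ.filter fun j => 2 < weight (m j) (G j)).card)))) := by
  classical
  have hαK : IsAlgebraic K α := by
    have h1 : ∀ z ∈ Up K' (ImageField B V c), ∃ a : K, algebraMap K K' a = z := by
      intro z hz
      unfold Up at hz
      rw [IntermediateField.mem_map] at hz
      obtain ⟨a, -, ha⟩ := hz
      exact ⟨a, ha⟩
    obtain ⟨p, hp0, hp⟩ := hα
    obtain ⟨p', hp'⟩ : ∃ p' : Polynomial K, p'.map (algebraMap K K') =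
        p.map (algebraMap (Up K' (ImageField B V c)) K') := by
      refine (Polynomial.mem_lifts _).1 ((Polynomial.lifts_iff_coeff_lifts _).2 fun i => ?_)
      rw [Polynomial.coeff_map]
      obtain ⟨a, ha⟩ := h1 _ (p.coeff i).2
      exact ⟨a, ha⟩
    refine ⟨p', ?_, ?_⟩
    · rintro rfl
      rw [Polynomial.map_zero] at hp'
      exact hp0 ((Polynomial.map_eq_zero _).1 hp'.symm)
    · rw [← Polynomial.eval_map_algebraMap, hp', Polynomial.eval_map_algebraMap]
      exact hp
  have hfin : FiniteDimensional K K' := by
    have h1 : FiniteDimensional K (IntermediateField.adjoin K {α}) :=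
      IntermediateField.adjoin.finiteDimensional hαK.isIntegral
    rw [hαt] at h1
    exact Module.Finite.of_surjective
      (IntermediateField.topEquiv : (⊤ : IntermediateField K K') ≃ₐ[K] K').toLinearMap
      (IntermediateField.topEquiv).surjective
  have htop : ∀ z : K', ∃ p : Polynomial K, z = Polynomial.aeval α p := by
    intro z
    have h1 : z ∈ IntermediateField.adjoin K {α} := by
      rw [hαt]
      trivial
    rw [← IntermediateField.mem_toSubalgebra,
      IntermediateField.adjoin_simple_toSubalgebra_of_isAlgebraic hαK,
      Algebra.adjoin_singleton_eq_range_aeval] at h1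
    obtain ⟨p, hp⟩ := h1
    exact ⟨p, hp.symm⟩
  have hS := hV.sys
  have htr : Algebra.trdeg ℂ (ImageField B V c) = (b + ∑ i, d i : ℕ) := hS.top
  have hBe : Algebra.EssFiniteType ℂ B := Pool.Agent.Q298.EF.ess_sub (K := K)
  obtain ⟨hU, hO⟩ := Pool.Agent.Q298.MX.mixcu (K := K) (by rw [hK, add_assoc]) htr hM hm hG heq hgen
  rw [add_assoc] at hU hO
  refine ⟨?_, fun h3 zz a hZ hMa => ?_⟩
  · rintro (h1 | ⟨j, hj⟩)
    · exact hU h1
    · exact hO j hj
  · obtain ⟨m₀, hm₀, η, hη, hne₀⟩ := hMa
    obtain ⟨m₁, hm₁, ζ, hζ, hne₁⟩ := hZ
    have hHF := Pool.Agent.Q298.MX.mixc (by rw [hK, add_assoc]) htr (α := α) hα htop hM hm hG heq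
      hgen X h3 m₀ a hm₀ η
      (fun l => ⟨(hη l).1, fun P hP => (hη l).2 P (Set.mem_univ _) hP⟩) hne₀
    rw [add_assoc] at hHF
    obtain ⟨N, hN, ω, h5, h6⟩ := hS.iitaka hK (δ₂ := fun _ => 0) (δ := fun _ => 0)
      (fun _ _ _ => le_rfl) (fun _ _ => by simp) hHF hm₁ (η := ζ)
      (fun l => ⟨(hζ l).1, fun P hP => (hζ l).2 P (Set.mem_univ _) hP⟩) hne₁
    refine ⟨N, hN, ω, fun j => ⟨(h5 j).1, fun P hPX hPd D hD => ?_⟩, h6⟩
    rcases (h5 j).2 P hPX hPd D hD with h7 | h7
    · exact Or.inl h7
    · right
      have h8 : (0 : ℝ) ≤ (P.ord (ω j D) : ℝ) := by simpa using h7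
      exact_mod_cast h8

end Pool.Agent.Results.MP_23b606_ag.SuperellipticTowers
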